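import Pool.Agent.Y583.FknA10

/-!
For `k = 4` the Erdos-Milner lower bound `f(4,n) > 2 ^ ((n-1)/3)` is exponentially far from the
truth.
-/

namespace Pool.Agent.Results.MP_633a91_lc.ErdosMilnerNotSharp

/-- The partition relation `α → (β, m)²` for a natural number `m`: the edges of the graph `G` form
the class `Δ₁`, the non-edges form `Δ₀`. -/
def Arrow (α β : Ordinal.{0}) (m : ℕ) : Prop :=
  ∀ G : SimpleGraph α.ToType,
    (∃ H : Set α.ToType, Ordinal.type (fun a b : H => a < b) = β ∧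
      H.Pairwise fun a b => ¬ G.Adj a b) ∨
    ∃ s : Finset α.ToType, G.IsNClique m s

/-- `f k n` is the least `m` with `ω ^ n ↛ (ω ^ k, m)²`. -/
noncomputable def f (k n : ℕ) : ℕ :=
  sInf {m : ℕ | ¬ Arrow (Ordinal.omega0 ^ n) (Ordinal.omega0 ^ k) m}

/-- There is a constant `c > 2 ^ (1/3)` with `f(4,n) ≥ c ^ n` for all large `n`. -/
theorem _root_.Pool.Agent.Results.MP_633a91_lc.ErdosMilnerNotSharp.result :
    ∃ c : ℝ, (2 : ℝ) ^ ((1 : ℝ) / 3) < c ∧ ∃ n₀ : ℕ, ∀ n ≥ n₀, c ^ n ≤ (f 4 n : ℝ) :=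
  Pool.Agent.Y583.Fkn.growth_exp

end Pool.Agent.Results.MP_633a91_lc.ErdosMilnerNotSharp
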